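import Pool.Agent.Work.MP_db9399_ts.OO
import Pool.Agent.Work.MP_db9399_as_helper75.FLOW

/-!
# MP_db9399, TSPLIT, block OOX: exact subgraph (helper48)

Every copy in `Hh` outside `MO` (`MI`) spreads its error over its arcs to `MI` (from `MO`), the arcs
from `MO` to `MI` lose `1 / (2 d)`; then `exact_arcs`.
-/

set_option autoImplicit false

namespace Pool.Agent.Work.MP_db9399_oox_helper48

open Finset Classical
open Pool.Agent.Work.MP_db9399_all (nb)
open Pool.Agent.Work.MP_db9399_as_helper75 (exact_arcs)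

universe u

variable {W : Type u} [Fintype W]

/-- corrected certificate -/
noncomputable def X1 (C : W → W → Prop) (x0 : W → W → ℝ) (Hh MO MI : Finset W) (d : ℕ)
    (eo ei : W → ℝ) (v w : W) : ℝ :=
  x0 v w + (if C v w ∧ v ∈ Hh ∧ v ∉ MO ∧ w ∈ MI then
      eo v / ((MI.filter fun w => C v w).card : ℝ) else 0) +
    (if C v w ∧ w ∈ Hh ∧ w ∉ MI ∧ v ∈ MO then
      ei w / ((MO.filter fun v => C v w).card : ℝ) else 0) -
    (if C v w ∧ v ∈ MO ∧ w ∈ MI then 1 / (2 * (d : ℝ)) else 0)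

theorem X1_rev (C : W → W → Prop) (x0 : W → W → ℝ) (Hh MO MI : Finset W) (d : ℕ)
    (eo ei : W → ℝ) (v w : W) :
    X1 (fun v w => C w v) (fun v w => x0 w v) Hh MI MO d ei eo w v =
      X1 C x0 Hh MO MI d eo ei v w := by
  unfold X1
  have e : (C v w ∧ w ∈ MI ∧ v ∈ MO) ↔ (C v w ∧ v ∈ MO ∧ w ∈ MI) := by tauto
  simp only [e]
  ring

section side

variable (C : W → W → Prop) (x0 : W → W → ℝ) (Hh MO MI : Finset W) (d : ℕ)
    (eo ei : W → ℝ) (ρ1 η : ℝ)

theorem sum_split (v : W) :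
    ∑ w, X1 C x0 Hh MO MI d eo ei v w = ∑ w, x0 v w +
      ∑ w, (if C v w ∧ v ∈ Hh ∧ v ∉ MO ∧ w ∈ MI then
        eo v / ((MI.filter fun w => C v w).card : ℝ) else 0) +
      ∑ w, (if C v w ∧ w ∈ Hh ∧ w ∉ MI ∧ v ∈ MO then
        ei w / ((MO.filter fun v => C v w).card : ℝ) else 0) -
      ∑ w, (if C v w ∧ v ∈ MO ∧ w ∈ MI then 1 / (2 * (d : ℝ)) else 0) := by
  unfold X1
  rw [sum_sub_distrib, sum_add_distrib, sum_add_distrib]

theorem out_exact (hd : 8 ≤ d) (hρ : 0 < ρ1)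
    (hMI : ∀ v ∈ Hh, ρ1 * d ≤ ((MI.filter fun w => C v w).card : ℝ))
    (v : W) (hv : v ∈ Hh) (hvM : v ∉ MO) :
    ∑ w, X1 C x0 Hh MO MI d eo ei v w = ∑ w, x0 v w + eo v := by
  have hd' : (8 : ℝ) ≤ d := by exact_mod_cast hd
  rw [sum_split]
  have e2 : ∑ w, (if C v w ∧ w ∈ Hh ∧ w ∉ MI ∧ v ∈ MO then
        ei w / ((MO.filter fun v => C v w).card : ℝ) else 0) = 0 :=
    sum_eq_zero fun w _ => if_neg fun h => hvM h.2.2.2
  have e3 : ∑ w, (if C v w ∧ v ∈ MO ∧ w ∈ MI then 1 / (2 * (d : ℝ)) else 0) = 0 :=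
    sum_eq_zero fun w _ => if_neg fun h => hvM h.2.1
  have hc : 0 < ((MI.filter fun w => C v w).card : ℝ) :=
    lt_of_lt_of_le (by positivity) (hMI v hv)
  have e1 : ∑ w, (if C v w ∧ v ∈ Hh ∧ v ∉ MO ∧ w ∈ MI then
        eo v / ((MI.filter fun w => C v w).card : ℝ) else 0) = eo v := by
    rw [← sum_filter, sum_const, nsmul_eq_mul]
    have : (univ.filter fun w => C v w ∧ v ∈ Hh ∧ v ∉ MO ∧ w ∈ MI) =
        MI.filter fun w => C v w := by
      ext w
      simp only [mem_filter, mem_univ, true_and]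
      tauto
    rw [this, mul_div_cancel₀]
    exact hc.ne'
  rw [e1, e2, e3]
  ring

theorem out_slack (hd : 8 ≤ d) (hρ : 0 < ρ1) (hη : 0 ≤ η)
    (h8 : 8 * η ≤ ρ1 ^ 2) (hdg : ∀ v, ((univ.filter fun w => C v w).card : ℝ) ≤ d)
    (hei : ∀ w ∈ Hh, |ei w| ≤ η)
    (hMO : ∀ w ∈ Hh, ρ1 * d ≤ ((MO.filter fun v => C v w).card : ℝ))
    (v : W) (hvM : v ∈ MO) :
    ∃ t : ℝ, |t| ≤ ρ1 / 8 ∧ ∑ w, X1 C x0 Hh MO MI d eo ei v w = ∑ w, x0 v w + t -
      ((MI.filter fun w => C v w).card : ℝ) / (2 * d) := by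
  have hd' : (8 : ℝ) ≤ d := by exact_mod_cast hd
  refine ⟨∑ w, (if C v w ∧ w ∈ Hh ∧ w ∉ MI ∧ v ∈ MO then
        ei w / ((MO.filter fun v => C v w).card : ℝ) else 0), ?_, ?_⟩
  · refine (abs_sum_le_sum_abs _ _).trans ?_
    have h1 : ∀ w ∈ (univ : Finset W), |(if C v w ∧ w ∈ Hh ∧ w ∉ MI ∧ v ∈ MO then
        ei w / ((MO.filter fun v => C v w).card : ℝ) else 0)| ≤
        if C v w then η / (ρ1 * d) else 0 := by
      intro w _
      by_cases h : C v w ∧ w ∈ Hh ∧ w ∉ MI ∧ v ∈ MO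
      · rw [if_pos h, if_pos h.1, abs_div,
          abs_of_nonneg (Nat.cast_nonneg (α := ℝ) (MO.filter fun v => C v w).card)]
        exact div_le_div₀ hη (hei w h.2.1) (by positivity) (hMO w h.2.1)
      · rw [if_neg h, abs_zero]
        split_ifs
        · positivity
        · exact le_refl _
    refine (sum_le_sum h1).trans ?_
    rw [← sum_filter, sum_const, nsmul_eq_mul]
    calc ((univ.filter fun w => C v w).card : ℝ) * (η / (ρ1 * d))
        ≤ d * (η / (ρ1 * d)) := mul_le_mul_of_nonneg_right (hdg v) (by positivity)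
      _ = η / ρ1 := by field_simp
      _ ≤ ρ1 / 8 := by
          rw [div_le_div_iff₀ hρ (by norm_num)]
          nlinarith
  · rw [sum_split]
    have e1 : ∑ w, (if C v w ∧ v ∈ Hh ∧ v ∉ MO ∧ w ∈ MI then
        eo v / ((MI.filter fun w => C v w).card : ℝ) else 0) = 0 :=
      sum_eq_zero fun w _ => if_neg fun h => h.2.2.1 hvM
    have e3 : ∑ w, (if C v w ∧ v ∈ MO ∧ w ∈ MI then 1 / (2 * (d : ℝ)) else 0) =
        ((MI.filter fun w => C v w).card : ℝ) / (2 * d) := by
      rw [← sum_filter, sum_const, nsmul_eq_mul]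
      have : (univ.filter fun w => C v w ∧ v ∈ MO ∧ w ∈ MI) =
          MI.filter fun w => C v w := by
        ext w
        simp only [mem_filter, mem_univ, true_and]
        tauto
      rw [this]
      ring
    rw [e1, e3]
    ring

theorem out_free (v : W) (hv : v ∉ Hh) (hvM : v ∉ MO) :
    ∑ w, X1 C x0 Hh MO MI d eo ei v w = ∑ w, x0 v w := by
  rw [sum_split]
  have e1 : ∑ w, (if C v w ∧ v ∈ Hh ∧ v ∉ MO ∧ w ∈ MI then
        eo v / ((MI.filter fun w => C v w).card : ℝ) else 0) = 0 :=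
    sum_eq_zero fun w _ => if_neg fun h => hv h.2.1
  have e2 : ∑ w, (if C v w ∧ w ∈ Hh ∧ w ∉ MI ∧ v ∈ MO then
        ei w / ((MO.filter fun v => C v w).card : ℝ) else 0) = 0 :=
    sum_eq_zero fun w _ => if_neg fun h => hvM h.2.2.2
  have e3 : ∑ w, (if C v w ∧ v ∈ MO ∧ w ∈ MI then 1 / (2 * (d : ℝ)) else 0) = 0 :=
    sum_eq_zero fun w _ => if_neg fun h => hvM h.2.1
  rw [e1, e2, e3]
  ring

theorem X1_bd (hd : 8 ≤ d)
    (heo : ∀ v ∈ Hh, |eo v / ((MI.filter fun w => C v w).card : ℝ)| ≤ 1 / 64)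
    (hei : ∀ w ∈ Hh, |ei w / ((MO.filter fun v => C v w).card : ℝ)| ≤ 1 / 64) (v w : W) :
    |X1 C x0 Hh MO MI d eo ei v w - x0 v w| ≤ 1 / 8 := by
  have hd' : (8 : ℝ) ≤ d := by exact_mod_cast hd
  have a1 : |(if C v w ∧ v ∈ Hh ∧ v ∉ MO ∧ w ∈ MI then
      eo v / ((MI.filter fun w => C v w).card : ℝ) else 0)| ≤ 1 / 64 := by
    split_ifs with h'
    · exact heo v h'.2.1
    · simp
  have a2 : |(if C v w ∧ w ∈ Hh ∧ w ∉ MI ∧ v ∈ MO then
      ei w / ((MO.filter fun v => C v w).card : ℝ) else 0)| ≤ 1 / 64 := by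
    split_ifs with h'
    · exact hei w h'.2.1
    · simp
  have a3 : |(if C v w ∧ v ∈ MO ∧ w ∈ MI then 1 / (2 * (d : ℝ)) else 0)| ≤ 1 / 16 := by
    split_ifs with h'
    · rw [abs_of_nonneg (by positivity), div_le_div_iff₀ (by positivity) (by norm_num)]
      linarith
    · simp
  rw [abs_le] at a1 a2 a3 ⊢
  simp only [X1]
  constructor <;> linarith [a1.1, a1.2, a2.1, a2.2, a3.1, a3.2]

theorem X1_off (v w : W) (h : ¬ C v w) : X1 C x0 Hh MO MI d eo ei v w = x0 v w := by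
  simp only [X1, h, false_and, if_false]
  ring

/-- all facts about the out-copy `v` -/
theorem side (hd : 8 ≤ d) (hρ : 0 < ρ1) (hρ' : ρ1 ≤ 1) (hη : 0 ≤ η)
    (h8 : 8 * η ≤ ρ1 ^ 2) (hdg : ∀ v, ((univ.filter fun w => C v w).card : ℝ) ≤ d)
    (s : W → ℝ) (To : W → ℕ) (hs : ∀ v, 0 ≤ s v + ∑ w, X1 C x0 Hh MO MI d eo ei v w)
    (heo : ∀ v, eo v = To v - (s v + ∑ w, x0 v w)) (heo' : ∀ v ∈ Hh, |eo v| ≤ η)
    (hTo : ∀ v ∈ Hh, 1 ≤ To v)
    (hei : ∀ w ∈ Hh, |ei w| ≤ η)
    (hMI : ∀ v ∈ Hh, ρ1 * d ≤ ((MI.filter fun w => C v w).card : ℝ))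
    (hMO : ∀ w ∈ Hh, ρ1 * d ≤ ((MO.filter fun v => C v w).card : ℝ)) :
    ∃ fo : W → ℕ,
      (∀ v, |∑ w, X1 C x0 Hh MO MI d eo ei v w - ∑ w, x0 v w| ≤ 1) ∧
      (∀ v, v ∉ (univ.filter fun v => v ∈ Hh → v ∈ MO) →
        s v + ∑ w, X1 C x0 Hh MO MI d eo ei v w = fo v) ∧
      (∀ v ∈ (univ.filter fun v => v ∈ Hh → v ∈ MO),
        (fo v : ℝ) ≤ s v + ∑ w, X1 C x0 Hh MO MI d eo ei v w ∧
        s v + ∑ w, X1 C x0 Hh MO MI d eo ei v w ≤ fo v + 1) ∧
      (∀ v ∈ Hh, v ∉ MO → fo v = To v) ∧ (∀ v ∈ Hh, v ∈ MO → fo v + 1 = To v) := by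
  have hd' : (8 : ℝ) ≤ d := by exact_mod_cast hd
  have hρ8 : η ≤ ρ1 / 8 := by nlinarith
  refine ⟨fun v => if v ∈ Hh then (if v ∈ MO then To v - 1 else To v) else
    ⌊s v + ∑ w, X1 C x0 Hh MO MI d eo ei v w⌋₊, ?_, ?_, ?_, ?_, ?_⟩
  · intro v
    by_cases hvM : v ∈ MO
    · obtain ⟨t, ht, e⟩ := out_slack C x0 Hh MO MI d eo ei ρ1 η hd hρ hη h8 hdg hei hMO v hvM
      rw [e]
      have h1 : ((MI.filter fun w => C v w).card : ℝ) ≤ d := by
        refine le_trans ?_ (hdg v)
        exact_mod_cast card_le_card (by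
          intro w hw
          simp only [mem_filter, mem_univ, true_and] at hw ⊢
          exact hw.2)
      have h2 : ((MI.filter fun w => C v w).card : ℝ) / (2 * d) ≤ 1 / 2 := by
        rw [div_le_div_iff₀ (by positivity) (by norm_num)]
        nlinarith
      have h3 : 0 ≤ ((MI.filter fun w => C v w).card : ℝ) / (2 * d) := by positivity
      rw [abs_le] at ht ⊢
      constructor <;> linarith
    · by_cases hv : v ∈ Hh
      · rw [out_exact C x0 Hh MO MI d eo ei ρ1 hd hρ hMI v hv hvM]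
        have := heo' v hv
        rw [add_sub_cancel_left]
        linarith
      · rw [out_free C x0 Hh MO MI d eo ei v hv hvM]
        simp
  · intro v hv
    simp only [mem_filter, mem_univ, true_and, not_forall] at hv
    obtain ⟨hv, hvM⟩ := hv
    rw [out_exact C x0 Hh MO MI d eo ei ρ1 hd hρ hMI v hv hvM]
    simp only [if_pos hv, if_neg hvM]
    rw [heo v]
    ring
  · intro v hv
    simp only [mem_filter, mem_univ, true_and] at hv
    by_cases hvH : v ∈ Hh
    · have hvM := hv hvH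
      simp only [if_pos hvH, if_pos hvM]
      obtain ⟨t, ht, e⟩ := out_slack C x0 Hh MO MI d eo ei ρ1 η hd hρ hη h8 hdg hei hMO v hvM
      rw [e]
      have h1 : ((MI.filter fun w => C v w).card : ℝ) ≤ d := by
        refine le_trans ?_ (hdg v)
        exact_mod_cast card_le_card (by
          intro w hw
          simp only [mem_filter, mem_univ, true_and] at hw ⊢
          exact hw.2)
      have h2 : ((MI.filter fun w => C v w).card : ℝ) / (2 * d) ≤ 1 / 2 := by
        rw [div_le_div_iff₀ (by positivity) (by norm_num)]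
        nlinarith
      have h3 : ρ1 / 2 ≤ ((MI.filter fun w => C v w).card : ℝ) / (2 * d) := by
        rw [div_le_div_iff₀ (by norm_num) (by positivity)]
        have := hMI v hvH
        nlinarith
      have hT : ((To v - 1 : ℕ) : ℝ) = (To v : ℝ) - 1 := by
        rw [Nat.cast_sub (hTo v hvH)]
        simp
      rw [hT]
      have h4 := heo v
      have h5 := abs_le.mp (heo' v hvH)
      rw [abs_le] at ht
      constructor <;> linarith [h5.1, h5.2]
    · simp only [if_neg hvH]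
      exact ⟨Nat.floor_le (hs v), (Nat.lt_floor_add_one _).le⟩
  · intro v hv hvM
    simp only [if_pos hv, if_neg hvM]
  · intro v hv hvM
    simp only [if_pos hv, if_pos hvM]
    have := hTo v hv
    omega

end side

theorem card_nb_le (ar : W → W → Prop) (F : SimpleGraph W)
    (h : ∀ v w, ar v w → F.Adj v w ∧ ¬ ar w v) (d : ℕ) (hF : ∀ v, (nb F v).card ≤ d)
    (C : W → W → Prop) (hC : ∀ v w, C v w → ar v w) (v : W) :
    ((univ.filter fun w => C v w).card : ℝ) ≤ d ∧ ((univ.filter fun w => C w v).card : ℝ) ≤ d := by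
  constructor
  · have : (univ.filter fun w => C v w) ⊆ nb F v := by
      intro w hw
      simp only [nb, mem_filter, mem_univ, true_and] at hw ⊢
      exact (h _ _ (hC _ _ hw)).1
    exact_mod_cast (card_le_card this).trans (hF v)
  · have : (univ.filter fun w => C w v) ⊆ nb F v := by
      intro w hw
      simp only [nb, mem_filter, mem_univ, true_and] at hw ⊢
      exact (h _ _ (hC _ _ hw)).1.symm
    exact_mod_cast (card_le_card this).trans (hF v)

/-- the degree in the graph of a set of arcs -/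
theorem graph_of_arcs (F : SimpleGraph W) (ar : W → W → Prop)
    (h : ∀ v w, ar v w → F.Adj v w ∧ ¬ ar w v) (T : Finset (W × W))
    (hT : ∀ p ∈ T, ar p.1 p.2) :
    ∃ S : SimpleGraph W, S ≤ F ∧ (∀ v w, S.Adj v w ↔ (v, w) ∈ T ∨ (w, v) ∈ T) ∧
      ∀ v, (nb S v).card = (T.filter fun p => p.1 = v).card + (T.filter fun p => p.2 = v).card := by
  have hTD : ∀ u v, (u, v) ∈ T → ar u v := fun u v h => hT _ h
  let S : SimpleGraph W :=
    { Adj := fun u v => (u, v) ∈ T ∨ (v, u) ∈ T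
      symm := ⟨fun u v h => h.symm⟩
      loopless := ⟨fun u h' => by
        have h'' : (u, u) ∈ T := by rcases h' with h' | h' <;> exact h'
        exact (h u u (hTD u u h'')).1.ne rfl⟩ }
  refine ⟨S, ?_, fun v w => Iff.rfl, ?_⟩
  · intro u v h'
    rcases h' with h' | h'
    · exact (h u v (hTD u v h')).1
    · exact (h v u (hTD v u h')).1.symm
  · intro v
    have e1 : nb S v =
        (univ.filter fun w => (v, w) ∈ T) ∪ (univ.filter fun w => (w, v) ∈ T) := by
      ext w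
      simp only [nb, mem_filter, mem_univ, true_and, mem_union]
      exact Iff.rfl
    rw [e1, card_union_of_disjoint]
    · congr 1
      · refine card_bij (fun w _ => (v, w)) ?_ ?_ ?_
        · intro w hw
          simp only [mem_filter, mem_univ, true_and] at hw ⊢
          exact ⟨hw, trivial⟩
        · intro w _ w' _ h
          exact (Prod.mk.injEq _ _ _ _ ▸ h).2
        · rintro ⟨a, b⟩ hp
          simp only [mem_filter] at hp
          obtain ⟨hp, rfl⟩ := hp
          exact ⟨b, by simp [hp], rfl⟩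
      · refine card_bij (fun w _ => (w, v)) ?_ ?_ ?_
        · intro w hw
          simp only [mem_filter, mem_univ, true_and] at hw ⊢
          exact ⟨hw, trivial⟩
        · intro w _ w' _ h
          exact (Prod.mk.injEq _ _ _ _ ▸ h).1
        · rintro ⟨a, b⟩ hp
          simp only [mem_filter] at hp
          obtain ⟨hp, rfl⟩ := hp
          exact ⟨a, by simp [hp], rfl⟩
    · rw [Finset.disjoint_left]
      intro w hw hw'
      simp only [mem_filter, mem_univ, true_and] at hw hw'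
      exact (h v w (hTD _ _ hw)).2 (hTD _ _ hw')

/-- block OOX -/
theorem stmt_OOX : MP_db9399_ts.Stmt_OOX.{u} := by
  intro W _ F ar S0 C0 x0 To Ti Hh MO MI d ρ1 η hd hρ hρ' hη h8 har hF hS0 hC0 hdis hM hx0 hx0'
    hOut hIn hT hMI hMO
  have hd' : (8 : ℝ) ≤ d := by exact_mod_cast hd
  -- notation
  obtain ⟨C, hC⟩ : ∃ C : W → W → Prop, ∀ v w, C v w ↔ (v, w) ∈ C0 :=
    ⟨fun v w => (v, w) ∈ C0, fun v w => Iff.rfl⟩
  have hMI' : ∀ v ∈ Hh, ρ1 * d ≤ ((MI.filter fun w => C v w).card : ℝ) := by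
    intro v hv
    have := hMI v hv
    simpa only [hC] using this
  have hMO' : ∀ v ∈ Hh, ρ1 * d ≤ ((MO.filter fun w => C w v).card : ℝ) := by
    intro v hv
    have := hMO v hv
    simpa only [hC] using this
  set so : W → ℝ := fun v => ((S0.filter fun p => p.1 = v).card : ℝ) with hso
  set si : W → ℝ := fun v => ((S0.filter fun p => p.2 = v).card : ℝ) with hsi
  set eo : W → ℝ := fun v => To v - (so v + ∑ w, x0 v w) with heo
  set ei : W → ℝ := fun v => Ti v - (si v + ∑ w, x0 w v) with hei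
  have hdg := card_nb_le ar F har d hF C (fun v w h => hC0 (v, w) ((hC v w).mp h))
  have heo' : ∀ v ∈ Hh, |eo v| ≤ η := by
    intro v hv
    rw [abs_sub_comm]
    exact hOut v hv
  have hei' : ∀ v ∈ Hh, |ei v| ≤ η := by
    intro v hv
    rw [abs_sub_comm]
    exact hIn v hv
  -- the corrected certificate
  set x1 : W → W → ℝ := X1 C x0 Hh MO MI d eo ei with hx1
  have hx1v : ∀ v w, (v, w) ∉ C0 → x1 v w = 0 := by
    intro v w h
    rw [hx1, X1_off C x0 Hh MO MI d eo ei v w (fun h' => h ((hC v w).mp h')), hx0' v w h]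
  have hbd : ∀ (e c : ℝ), |e| ≤ η → ρ1 * d ≤ c → |e / c| ≤ 1 / 64 := by
    intro e c he hc
    have hc0 : 0 < c := lt_of_lt_of_le (by positivity) hc
    rw [abs_div, abs_of_pos hc0, div_le_iff₀ hc0]
    have : 8 * η ≤ ρ1 := by nlinarith
    nlinarith
  have hx01 : ∀ v w, 0 ≤ x1 v w ∧ x1 v w ≤ 1 := by
    intro v w
    by_cases h : (v, w) ∈ C0
    · obtain ⟨h1, h2⟩ := hx0 v w h
      have h3 := abs_le.mp (X1_bd C x0 Hh MO MI d eo ei hd
        (fun v hv => hbd _ _ (heo' v hv) (hMI' v hv)) (fun v hv => hbd _ _ (hei' v hv) (hMO' v hv))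
        v w)
      constructor <;> linarith [h3.1, h3.2]
    · rw [hx1v v w h]
      norm_num
  obtain ⟨fo, o1, o2, o3, o4, o5⟩ := side C x0 Hh MO MI d eo ei ρ1 η hd hρ hρ' hη h8
    (fun v => (hdg v).1) so To
    (fun v => add_nonneg (Nat.cast_nonneg _) (sum_nonneg fun w _ => (hx01 v w).1))
    (fun v => rfl) heo' (fun v hv => (hT v hv).1) hei' hMI' hMO'
  have hrev : ∀ v, ∑ w, X1 (fun v w => C w v) (fun v w => x0 w v) Hh MI MO d ei eo v w =
      ∑ w, x1 w v := fun v => sum_congr rfl fun w _ => X1_rev C x0 Hh MO MI d eo ei w v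
  obtain ⟨fi, i1, i2, i3, i4, i5⟩ := side (fun v w => C w v) (fun v w => x0 w v) Hh MI MO d ei eo
    ρ1 η hd hρ hρ' hη h8 (fun v => (hdg v).2) si Ti
    (fun v => by
      rw [hrev]
      exact add_nonneg (Nat.cast_nonneg _) (sum_nonneg fun w _ => (hx01 w v).1))
    (fun v => rfl) hei' (fun v hv => (hT v hv).2) heo' hMO' hMI'
  simp only [hrev] at i1 i2 i3
  obtain ⟨T, t0, t1, tO, tO', tI, tI'⟩ := exact_arcs S0 C0 hdis x1 hx01 hx1v fo fi
    (univ.filter fun v => v ∈ Hh → v ∈ MO) (univ.filter fun v => v ∈ Hh → v ∈ MI) o2 o3 i2 i3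
  have hTar : ∀ p ∈ T, ar p.1 p.2 := by
    intro p hp
    rcases mem_union.mp (t1 hp) with h | h
    · exact hS0 _ h
    · exact hC0 _ h
  obtain ⟨S, g1, g2, g3⟩ := graph_of_arcs F ar har T hTar
  refine ⟨S, g1, ?_, ?_, ?_, ?_, ?_⟩
  · intro p hp
    rw [g2]
    exact Or.inl (t0 hp)
  · intro v w h
    rw [g2] at h
    rcases h with h | h
    · exact Or.inl (t1 h)
    · exact Or.inr (t1 h)
  · intro v hv hvO hvI
    rw [g3 v, tO v (by simp [hv, hvO]), tI v (by simp [hv, hvI]), o4 v hv hvO, i4 v hv hvI]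
  · intro v hv
    by_cases hvO : v ∈ MO
    · have hvI : v ∉ MI := fun h => (Finset.disjoint_left.mp hM) hvO h
      rw [g3 v, tI v (by simp [hv, hvI]), i4 v hv hvI]
      have := o5 v hv hvO
      rcases tO' v (by simp [hvO]) with h | h <;> rw [h]
      · right; omega
      · left; omega
    · rw [g3 v, tO v (by simp [hv, hvO]), o4 v hv hvO]
      by_cases hvI : v ∈ MI
      · have := i5 v hv hvI
        rcases tI' v (by simp [hvI]) with h | h <;> rw [h]
        · right; omega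
        · left; omega
      · rw [tI v (by simp [hv, hvI]), i4 v hv hvI]
        left; trivial
  · intro v
    have ao : |(((T.filter fun p => p.1 = v).card : ℕ) : ℝ) - (so v + ∑ w, x0 v w)| ≤ 2 := by
      have h1 := abs_le.mp (o1 v)
      by_cases h : v ∈ (univ.filter fun v => v ∈ Hh → v ∈ MO)
      · have h2 := o3 v h
        rw [abs_le]
        rcases tO' v h with h3 | h3 <;> rw [h3] <;> push_cast <;> constructor <;>
          linarith [h1.1, h1.2, h2.1, h2.2]
      · have h2 := o2 v h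
        rw [tO v h, abs_le]
        constructor <;> linarith [h1.1, h1.2]
    have ai : |(((T.filter fun p => p.2 = v).card : ℕ) : ℝ) - (si v + ∑ w, x0 w v)| ≤ 2 := by
      have h1 := abs_le.mp (i1 v)
      by_cases h : v ∈ (univ.filter fun v => v ∈ Hh → v ∈ MI)
      · have h2 := i3 v h
        rw [abs_le]
        rcases tI' v h with h3 | h3 <;> rw [h3] <;> push_cast <;> constructor <;>
          linarith [h1.1, h1.2, h2.1, h2.2]
      · have h2 := i2 v h
        rw [tI v h, abs_le]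
        constructor <;> linarith [h1.1, h1.2]
    rw [g3 v]
    push_cast
    rw [abs_le] at ao ai ⊢
    constructor <;> linarith [ao.1, ao.2, ai.1, ai.2]

end Pool.Agent.Work.MP_db9399_oox_helper48
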